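import Mathlib
import Pool.Agent.Helper804.Bow.Gen

set_option autoImplicit false

/-!
# Primitive elements of the free group of rank two

Every primitive element of `F(a,b)` is conjugate to a word, or to the inverse of a word, in
`a`, `a⁻¹`, `b`.
-/

namespace Pool.Agent.R692.CV

open Pool.Agent.Helper804.Bow

/-- An element of `F(a,b)` is primitive if it belongs to a free basis, i.e. if it is the image of
`a` under an automorphism. -/
def IsPrimitive (g : FreeGroup (Fin 2)) : Prop :=
  ∃ φ : FreeGroup (Fin 2) ≃* FreeGroup (Fin 2), φ (FreeGroup.of 0) = g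

/-- an element or its inverse -/
def sg (s : Bool) (g : F2) : F2 := if s then g else g⁻¹

@[simp] theorem sg_true (g : F2) : sg true g = g := rfl
@[simp] theorem sg_false (g : F2) : sg false g = g⁻¹ := rfl

theorem sg_inv (s : Bool) (g : F2) : (sg s g)⁻¹ = sg (!s) g := by cases s <;> simp

/-- pairs obtained from a standard pair by positive moves -/
inductive Pos : F2 → F2 → Prop
  | base (s t : Bool) : Pos (sg s (.of 0)) (sg t (.of 1))
  | base' (s t : Bool) : Pos (sg s (.of 1)) (sg t (.of 0))
  | L {x y : F2} : Pos x y → Pos x (x * y)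
  | R {x y : F2} : Pos x y → Pos (x * y) y

/-- unordered version -/
def Q (x y g h : F2) : Prop := (g = x ∧ h = y) ∨ (g = y ∧ h = x)

/-- pairs which are conjugate to a positive pair, up to signs and order -/
def C (g h : F2) : Prop :=
  ∃ c x y : F2, ∃ s t : Bool, Pos x y ∧
    ((g = c * sg s x * c⁻¹ ∧ h = c * sg t y * c⁻¹) ∨ (g = c * sg s y * c⁻¹ ∧ h = c * sg t x * c⁻¹))

theorem C.conj {g h : F2} (H : C g h) (d : F2) : C (d * g * d⁻¹) (d * h * d⁻¹) := by
  obtain ⟨c, x, y, s, t, hp, h1 | h1⟩ := H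
  · refine ⟨d * c, x, y, s, t, hp, Or.inl ⟨?_, ?_⟩⟩
    · rw [h1.1]; group
    · rw [h1.2]; group
  · refine ⟨d * c, x, y, s, t, hp, Or.inr ⟨?_, ?_⟩⟩
    · rw [h1.1]; group
    · rw [h1.2]; group

theorem C.swap {g h : F2} (H : C g h) : C h g := by
  obtain ⟨c, x, y, s, t, hp, h1 | h1⟩ := H
  · exact ⟨c, x, y, t, s, hp, Or.inr ⟨h1.2, h1.1⟩⟩
  · exact ⟨c, x, y, t, s, hp, Or.inl ⟨h1.2, h1.1⟩⟩

theorem C.invl {g h : F2} (H : C g h) : C g⁻¹ h := by
  obtain ⟨c, x, y, s, t, hp, h1 | h1⟩ := H
  · refine ⟨c, x, y, !s, t, hp, Or.inl ⟨?_, h1.2⟩⟩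
    rw [h1.1, ← sg_inv]; group
  · refine ⟨c, x, y, !s, t, hp, Or.inr ⟨?_, h1.2⟩⟩
    rw [h1.1, ← sg_inv]; group

theorem C.invr {g h : F2} (H : C g h) : C g h⁻¹ := H.swap.invl.swap

theorem C.of_pos {x y : F2} (H : Pos x y) : C x y :=
  ⟨1, x, y, true, true, H, Or.inl ⟨by simp, by simp⟩⟩

theorem C.of_conj {g h : F2} (d : F2) (H : C (d * g * d⁻¹) (d * h * d⁻¹)) : C g h := by
  have := H.conj d⁻¹
  have e1 : d⁻¹ * (d * g * d⁻¹) * d⁻¹⁻¹ = g := by group
  have e2 : d⁻¹ * (d * h * d⁻¹) * d⁻¹⁻¹ = h := by group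
  rwa [e1, e2] at this

/-- the move `(g,h) ↦ (g, g h)` -/
theorem C.move {g h : F2} (H : C g h) : C g (g * h) := by
  -- reduce to trivial conjugator
  have key : ∀ x y : F2, Pos x y → ∀ s t : Bool,
      C (sg s x) (sg s x * sg t y) ∧ C (sg s y) (sg s y * sg t x) := by
    intro x y hp s t
    -- same sign cases
    cases s <;> cases t
    · -- both inverse
      constructor
      · -- (x⁻¹, x⁻¹ y⁻¹)
        refine C.of_conj x ?_
        have e1 : x * sg false x * x⁻¹ = x⁻¹ := by simp
        have e2 : x * (sg false x * sg false y) * x⁻¹ = (x * y)⁻¹ := by simp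
        rw [e1, e2]
        exact (C.of_pos hp.L).invl.invr
      · have e2 : (sg false y * sg false x) = (x * y)⁻¹ := by simp
        rw [e2, sg_false]
        exact (C.of_pos hp.R).swap.invl.invr
    · -- x⁻¹, y
      constructor
      · cases hp with
        | base s t =>
          refine C.of_pos ?_
          have := (Pos.base (!s) t).L
          simpa [sg_inv] using this
        | base' s t =>
          refine C.of_pos ?_
          have := (Pos.base' (!s) t).L
          simpa [sg_inv] using this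
        | @L _ y' hp' =>
          -- (x⁻¹, y')
          have e : sg false x * sg true (x * y') = y' := by simp
          rw [e]
          exact (C.of_pos hp').invl
        | @R x' _ hp' =>
          -- ((x' y)⁻¹, (x' y)⁻¹ y) conj
          refine C.of_conj (x' * y) ?_
          have e1 : (x' * y) * sg false (x' * y) * (x' * y)⁻¹ = (x' * y)⁻¹ := by simp
          have e2 : (x' * y) * (sg false (x' * y) * sg true y) * (x' * y)⁻¹ = x'⁻¹ := by
            simp only [sg_true, sg_false]; group
          rw [e1, e2]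
          exact (C.of_pos hp'.L).swap.invl.invr
      · cases hp with
        | base s t =>
          refine C.of_pos ?_
          have := (Pos.base' (!t) s).L
          simpa [sg_inv] using this
        | base' s t =>
          refine C.of_pos ?_
          have := (Pos.base (!t) s).L
          simpa [sg_inv] using this
        | @L _ y' hp' =>
          -- ((x y')⁻¹, (x y')⁻¹ x) = ((x y')⁻¹, y'⁻¹)
          have e : sg false (x * y') * sg true x = y'⁻¹ := by simp
          rw [e, sg_false]
          exact (C.of_pos hp'.R).invl.invr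
        | @R x' _ hp' =>
          -- (y⁻¹, y⁻¹ x' y)
          refine C.of_conj y ?_
          have e1 : y * sg false y * y⁻¹ = y⁻¹ := by simp
          have e2 : y * (sg false y * sg true (x' * y)) * y⁻¹ = x' := by simp
          rw [e1, e2]
          exact (C.of_pos hp').swap.invl
    · -- x, y⁻¹
      constructor
      · cases hp with
        | base s t =>
          refine C.of_pos ?_
          have := (Pos.base s (!t)).L
          simpa [sg_inv] using this
        | base' s t =>
          refine C.of_pos ?_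
          have := (Pos.base' s (!t)).L
          simpa [sg_inv] using this
        | @L _ y' hp' =>
          -- (x, x (x y')⁻¹) = (x, x y'⁻¹ x⁻¹)
          refine C.of_conj x⁻¹ ?_
          have e1 : x⁻¹ * sg true x * x⁻¹⁻¹ = x := by simp
          have e2 : x⁻¹ * (sg true x * sg false (x * y')) * x⁻¹⁻¹ = y'⁻¹ := by simp
          rw [e1, e2]
          exact (C.of_pos hp').invr
        | @R x' _ hp' =>
          -- (x' y, x')
          have e : sg true (x' * y) * sg false y = x' := by simp
          rw [e]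
          exact (C.of_pos hp'.L).swap
      · cases hp with
        | base s t =>
          refine C.of_pos ?_
          have := (Pos.base' t (!s)).L
          simpa [sg_inv] using this
        | base' s t =>
          refine C.of_pos ?_
          have := (Pos.base t (!s)).L
          simpa [sg_inv] using this
        | @L _ y' hp' =>
          -- (x y', x y' x⁻¹) ~ (y' x, y') ~ (x y', y')
          refine C.of_conj (y'⁻¹ * x⁻¹) ?_
          have e1 : y'⁻¹ * x⁻¹ * sg true (x * y') * (y'⁻¹ * x⁻¹)⁻¹ = x * y' := by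
            simp [mul_assoc]
          have e2 : y'⁻¹ * x⁻¹ * (sg true (x * y') * sg false x) * (y'⁻¹ * x⁻¹)⁻¹ = y' := by
            simp [mul_assoc]
          rw [e1, e2]
          exact C.of_pos hp'.R
        | @R x' _ hp' =>
          -- (y, y (x' y)⁻¹) = (y, x'⁻¹)
          have e : sg true y * sg false (x' * y) = x'⁻¹ := by simp
          rw [e]
          exact (C.of_pos hp').swap.invr
    · constructor
      · simp only [sg_true]
        exact C.of_pos hp.L
      · -- (y, y x) ~ (y, x y)
        refine C.of_conj y⁻¹ ?_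
        have e1 : y⁻¹ * sg true y * y⁻¹⁻¹ = y := by simp
        have e2 : y⁻¹ * (sg true y * sg true x) * y⁻¹⁻¹ = x * y := by simp
        rw [e1, e2]
        exact (C.of_pos hp.R).swap
  obtain ⟨c, x, y, s, t, hp, ⟨h1, h2⟩ | ⟨h1, h2⟩⟩ := H
  · have := ((key x y hp s t).1).conj c
    rw [h1, h2]
    have e : c * sg s x * c⁻¹ * (c * sg t y * c⁻¹) = c * (sg s x * sg t y) * c⁻¹ := by group
    rw [e]
    exact this
  · have := ((key x y hp s t).2).conj c
    rw [h1, h2]
    have e : c * sg s y * c⁻¹ * (c * sg t x * c⁻¹) = c * (sg s y * sg t x) * c⁻¹ := by group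
    rw [e]
    exact this

theorem C.move_inv {g h : F2} (H : C g h) : C g (g⁻¹ * h) := by
  have := H.invl.move.invl
  rwa [inv_inv] at this

theorem hsw (φ : MulAut F2) : (φ * sw) (.of 0) = φ (.of 1) ∧ (φ * sw) (.of 1) = φ (.of 0) := by
  simp [MulAut.mul_apply]

theorem sw_inv : sw⁻¹ = sw := by
  rw [inv_eq_iff_mul_eq_one]
  exact aut_ext (by simp) (by simp)

theorem m2_inv : m2⁻¹ = m2 := by
  rw [inv_eq_iff_mul_eq_one]
  exact aut_ext (by simp) (by simp)

theorem aut_C (φ : MulAut F2) : C (φ (.of 0)) (φ (.of 1)) := by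
  have hφ : φ ∈ Subgroup.closure ({sw, Lm, m2} : Set (MulAut F2)) := by
    rw [gen_top]; trivial
  induction hφ using Subgroup.closure_induction_right with
  | one => exact C.of_pos (Pos.base true true)
  | mul_right φ _ y hy ih =>
    rcases hy with rfl | rfl | rfl
    · simpa [MulAut.mul_apply] using ih.swap
    · simpa [MulAut.mul_apply] using ih.move
    · simpa [MulAut.mul_apply] using ih.invr
  | mul_inv_cancel φ _ y hy ih =>
    rcases hy with rfl | rfl | rfl
    · rw [sw_inv]
      simpa [MulAut.mul_apply] using ih.swap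
    · have e0 : (φ * Lm⁻¹) (.of 0) = φ (.of 0) := by
        rw [MulAut.mul_apply, hx2021_Li0]
      have e1 : (φ * Lm⁻¹) (.of 1) = (φ (.of 0))⁻¹ * φ (.of 1) := by
        rw [MulAut.mul_apply, hx2021_Li1, map_mul, map_inv]
      rw [e0, e1]
      exact ih.move_inv
    · rw [m2_inv]
      simpa [MulAut.mul_apply] using ih.invr

theorem Pos.mem {x y : F2} (h : Pos x y) : ∃ s t : Bool,
    x ∈ Submonoid.closure {sg s (.of 0 : F2), sg t (.of 1)} ∧
    y ∈ Submonoid.closure {sg s (.of 0 : F2), sg t (.of 1)} := by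
  induction h with
  | base s t =>
    exact ⟨s, t, Submonoid.subset_closure (by simp), Submonoid.subset_closure (by simp)⟩
  | base' s t =>
    exact ⟨t, s, Submonoid.subset_closure (by simp), Submonoid.subset_closure (by simp)⟩
  | L _ ih =>
    obtain ⟨s, t, h1, h2⟩ := ih
    exact ⟨s, t, h1, mul_mem h1 h2⟩
  | R _ ih =>
    obtain ⟨s, t, h1, h2⟩ := ih
    exact ⟨s, t, mul_mem h1 h2, h2⟩

/-- words in `a`, `a⁻¹`, `b` -/
def M : Submonoid F2 := Submonoid.closure {(.of 0 : F2), (.of 0)⁻¹, .of 1}

theorem inv_mem_closure {s : Set F2} {x : F2} (h : x ∈ Submonoid.closure s) :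
    x⁻¹ ∈ Submonoid.closure s⁻¹ := by
  rw [Submonoid.closure_inv]
  simpa using h

theorem mem_M {s t : Bool} {x : F2}
    (h : x ∈ Submonoid.closure {sg s (.of 0 : F2), sg t (.of 1)}) : x ∈ M ∨ x⁻¹ ∈ M := by
  cases t
  · right
    have h1 := inv_mem_closure h
    refine (Submonoid.closure_mono ?_) h1
    intro z hz
    simp only [Set.mem_inv, Set.mem_insert_iff, Set.mem_singleton_iff] at hz ⊢
    rcases hz with hz | hz
    · rw [inv_eq_iff_eq_inv, sg_inv] at hz
      cases s
      · left; rw [hz]; simp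
      · right; left; rw [hz]; simp
    · rw [inv_eq_iff_eq_inv, sg_inv] at hz
      right; right; rw [hz]; simp
  · left
    refine (Submonoid.closure_mono ?_) h
    intro z hz
    simp only [Set.mem_insert_iff, Set.mem_singleton_iff] at hz ⊢
    rcases hz with hz | hz
    · cases s
      · right; left; rw [hz]; simp
      · left; rw [hz]; simp
    · right; right; rw [hz]; simp

/-- Every primitive element is conjugate to an element of `M` or the inverse of one. -/
theorem primitive_M {g : F2} (hg : IsPrimitive g) : ∃ c m : F2, m ∈ M ∧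
    (g = c * m * c⁻¹ ∨ g = c * m⁻¹ * c⁻¹) := by
  obtain ⟨φ, rfl⟩ := hg
  obtain ⟨c, x, y, s, t, hp, h | h⟩ := aut_C φ
  · obtain ⟨s', t', h1, h2⟩ := hp.mem
    rcases mem_M h1 with h3 | h3
    · refine ⟨c, x, h3, ?_⟩
      rw [h.1]
      cases s <;> simp
    · refine ⟨c, x⁻¹, h3, ?_⟩
      rw [h.1]
      cases s <;> simp
  · obtain ⟨s', t', h1, h2⟩ := hp.mem
    rcases mem_M h2 with h3 | h3
    · refine ⟨c, y, h3, ?_⟩
      rw [h.1]
      cases s <;> simp
    · refine ⟨c, y⁻¹, h3, ?_⟩
      rw [h.1]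
      cases s <;> simp

/-- product of the blocks `a^k b` -/
def blk (ks : List ℤ) : F2 := (ks.map (fun k => (FreeGroup.of 0 : F2) ^ k * .of 1)).prod

theorem M_form {m : F2} (hm : m ∈ M) : ∃ (ks : List ℤ) (k0 : ℤ),
    m = blk ks * (FreeGroup.of 0) ^ k0 := by
  unfold M at hm
  induction hm using Submonoid.closure_induction_right with
  | one => exact ⟨[], 0, by simp [blk]⟩
  | mul_right x _ y hy ih =>
    obtain ⟨ks, k0, h⟩ := ih
    rcases hy with rfl | rfl | rfl
    · exact ⟨ks, k0 + 1, by rw [h, zpow_add_one, mul_assoc]⟩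
    · exact ⟨ks, k0 - 1, by rw [h, zpow_sub_one, mul_assoc]⟩
    · refine ⟨ks ++ [k0], 0, ?_⟩
      rw [h]
      simp [blk, mul_assoc]

theorem M_conj {m : F2} (hm : m ∈ M) : (∃ k : ℤ, m = (FreeGroup.of 0) ^ k) ∨
    ∃ (c : F2) (ks : List ℤ), m = c * blk ks * c⁻¹ := by
  obtain ⟨ks, k0, h⟩ := M_form hm
  cases ks with
  | nil => left; exact ⟨k0, by rw [h]; simp [blk]⟩
  | cons k ks =>
    right
    refine ⟨(FreeGroup.of 0) ^ (-k0), (k0 + k) :: ks, ?_⟩
    rw [h]
    simp only [blk, List.map_cons, List.prod_cons, zpow_add, zpow_neg]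
    group

/-- Every primitive element is, up to conjugation and inversion, a power of `a` or a product of
blocks `a^k b`. -/
theorem primitive_form {g : F2} (hg : IsPrimitive g) : ∃ c m : F2,
    (g = c * m * c⁻¹ ∨ g = c * m⁻¹ * c⁻¹) ∧
    ((∃ k : ℤ, m = (FreeGroup.of 0) ^ k) ∨ ∃ ks : List ℤ, m = blk ks) := by
  obtain ⟨c, m, hm, h⟩ := primitive_M hg
  rcases M_conj hm with hk | ⟨d, ks, hd⟩
  · exact ⟨c, m, h, Or.inl hk⟩
  · refine ⟨c * d, blk ks, ?_, Or.inr ⟨ks, rfl⟩⟩
    rcases h with h | h
    · left; rw [h, hd]; group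
    · right; rw [h, hd]; group

/-- `u = a⁻¹`, `v = a^(N+1) b` -/
def psi (N : ℕ) : F2 →* F2 := hom2 (.of 0)⁻¹ ((.of 0) ^ (N + 1) * .of 1)

/-- The automorphism `a ↦ a⁻¹`, `b ↦ a^(N+1) b` (an involution). -/
def psiA (N : ℕ) : F2 ≃* F2 := MonoidHom.toMulEquiv (psi N) (psi N)
  (hom2_ext (by simp [psi]) (by simp [psi]))
  (hom2_ext (by simp [psi]) (by simp [psi]))

@[simp] theorem psiA_zero (N : ℕ) : psiA N (.of 0) = (.of 0)⁻¹ := by simp [psiA, psi]
@[simp] theorem psiA_one (N : ℕ) : psiA N (.of 1) = (.of 0) ^ (N + 1) * .of 1 := by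
  simp [psiA, psi]

/-- product of the blocks `a^(m+1) b` -/
def pblk (ms : List ℕ) : F2 := (ms.map (fun m => (FreeGroup.of 0 : F2) ^ (m + 1) * .of 1)).prod

theorem blk_eq (N : ℕ) (ks : List ℤ) (h : ∀ k ∈ ks, k ≤ N) :
    blk ks = psiA N (pblk (ks.map (fun k => ((N : ℤ) - k).toNat))) := by
  induction ks with
  | nil => simp [blk, pblk]
  | cons k ks ih =>
    have ih' := ih (fun k hk => h k (by simp [hk]))
    have hk := h k (by simp)
    simp only [blk, pblk, List.map_cons, List.prod_cons, map_mul] at ih' ⊢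
    rw [ih']
    congr 1
    rw [map_pow, psiA_zero, psiA_one, ← mul_assoc]
    congr 1
    have e : (((N : ℤ) - k).toNat : ℤ) = N - k := Int.toNat_of_nonneg (by omega)
    rw [inv_pow, ← zpow_natCast, ← zpow_natCast, ← zpow_neg, ← zpow_add]
    congr 1
    push_cast
    rw [e]
    ring

theorem exists_bound (ks : List ℤ) : ∃ N0 : ℕ, ∀ N : ℕ, N0 ≤ N → ∀ k ∈ ks, k ≤ N := by
  induction ks with
  | nil => exact ⟨0, by simp⟩
  | cons k ks ih =>
    obtain ⟨N0, h⟩ := ih
    refine ⟨max N0 k.toNat, fun N hN k' hk' => ?_⟩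
    have h1 : N0 ≤ N := le_trans (le_max_left _ _) hN
    have h2 : k.toNat ≤ N := le_trans (le_max_right _ _) hN
    rcases List.mem_cons.1 hk' with rfl | h3
    · omega
    · exact h N h1 k' h3

end Pool.Agent.R692.CV
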