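import Mathlib
import Pool.Agent.H472R3.TreeLen
import Pool.Agent.H472R3.Words

set_option autoImplicit false

/-!
# Metric graphs with three edges and two vertices: their universal covers as points of `cv_2`
-/

namespace Pool.Agent.R692.CV

open Pool.Agent.H472R3

/-- `p` lies on the segment `[x, y]`. -/
def Btw {T : Type} [MetricSpace T] (x p y : T) : Prop := dist x p + dist p y = dist x y

/-- The arcs `[x i, y i]` form a simplicial fundamental domain: the interiors of the arcs are open
subsets of the tree, the translates of the arcs cover the tree, and two different translates meet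
at most in endpoints. -/
structure IsEdgeDomain {N : ℕ} (A : FTree N) {n : ℕ} (x y : Fin n → A.T) : Prop where
  ne : ∀ i, x i ≠ y i
  cover : ∀ p : A.T, ∃ (i : Fin n) (g : FreeGroup (Fin N)), Btw (g • x i) p (g • y i)
  disj : ∀ (i j : Fin n) (g : FreeGroup (Fin N)) (p : A.T), Btw (x i) p (y i) → p ≠ x i →
    p ≠ y i → Btw (g • x j) p (g • y j) → g = 1 ∧ i = j
  opn : ∀ (i : Fin n) (p : A.T), Btw (x i) p (y i) → p ≠ x i → p ≠ y i →
    ∃ ε > 0, ∀ q : A.T, dist p q < ε → Btw (x i) q (y i)

/-- The quotient of the tree by the free group is a finite graph with total edge length `c`. -/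
def HasCovolume {N : ℕ} (A : FTree N) (c : ℝ) : Prop :=
  ∃ (n : ℕ) (x y : Fin n → A.T), IsEdgeDomain A x y ∧ ∑ i, dist (x i) (y i) = c

theorem Btw.symm {T : Type} [MetricSpace T] {x p y : T} (h : Btw x p y) : Btw y p x := by
  unfold Btw at *
  rw [dist_comm y p, dist_comm p x, dist_comm y x]
  linarith

theorem btw_dist {T : Type} [MetricSpace T] (h : IsRTree T) {u p v : T} (hp : Btw u p v) (z : T) :
    dist p z = max (dist u z - dist u p) (dist v z - dist v p) := by
  have h1 := h.zeroHyperbolic p z u v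
  unfold Btw at hp
  apply le_antisymm
  · rw [le_max_iff]
    rcases le_max_iff.1 h1 with h2 | h2
    · right
      rw [dist_comm z v, dist_comm p u] at h2
      rw [dist_comm v p]
      linarith
    · left
      rw [dist_comm z u] at h2
      linarith
  · apply max_le
    · have := dist_triangle u p z; linarith
    · have := dist_triangle v p z; linarith

theorem btw_split {T : Type} [MetricSpace T] (h : IsRTree T) {x p z : T} (hp : Btw x p z) (y : T) :
    Btw x p y ∨ Btw y p z := by
  have h1 := btw_dist h hp y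
  rcases max_choice (dist x y - dist x p) (dist z y - dist z p) with h2 | h2
  · left
    rw [h2] at h1
    unfold Btw; linarith
  · right
    rw [h2] at h1
    apply Btw.symm
    unfold Btw; linarith

/-! ### General facts on trees -/

section general

variable {N : ℕ} (A : FTree N)

theorem dist_smul_smul (g : FreeGroup (Fin N)) (x y : A.T) : dist (g • x) (g • y) = dist x y :=
  A.isometric g x y

theorem Btw.smul {A : FTree N} {x p y : A.T} (h : Btw x p y) (g : FreeGroup (Fin N)) :
    Btw (g • x) (g • p) (g • y) := by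
  unfold Btw at *
  rw [dist_smul_smul, dist_smul_smul, dist_smul_smul, h]

/-- A point with `d(o, h^n o) = n L` lies in every invariant subtree. -/
theorem mem_of_axis {o : A.T} {h : FreeGroup (Fin N)} {L : ℝ} (hpos : 0 < L)
    (hpow : ∀ n : ℕ, dist o (h ^ n • o) = n * L) (Y : Set A.T) (hne : Y.Nonempty)
    (hconv : ∀ x ∈ Y, ∀ y ∈ Y, ∀ z, dist x z + dist z y = dist x y → z ∈ Y)
    (hinv : ∀ g : FreeGroup (Fin N), ∀ y ∈ Y, g • y ∈ Y) : o ∈ Y := by
  obtain ⟨y, hy⟩ := hne
  have hiso := A.isometric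
  obtain ⟨n, hn⟩ := exists_nat_gt (dist o y / L)
  have hn' : dist o y < n * L := by
    rwa [div_lt_iff₀ hpos] at hn
  have e1 : dist o (h ^ n • o) = n * L := hpow n
  have e2 : dist o ((h ^ n)⁻¹ • o) = n * L := by
    rw [← hiso (h ^ n), smul_inv_smul, dist_comm, hpow]
  have e3 : dist ((h ^ n)⁻¹ • o) (h ^ n • o) = 2 * (n * L) := by
    rw [← hiso (h ^ n), smul_inv_smul, ← mul_smul, ← pow_add, hpow]
    push_cast; ring
  have e4 : dist (h ^ n • o) (h ^ n • y) = dist o y := hiso _ _ _
  have e5 : dist ((h ^ n)⁻¹ • o) ((h ^ n)⁻¹ • y) = dist o y := hiso _ _ _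
  apply hconv ((h ^ n)⁻¹ • y) (hinv _ y hy) (h ^ n • y) (hinv _ y hy)
  have q1 := A.isRTree.zeroHyperbolic ((h ^ n)⁻¹ • o) (h ^ n • y) o (h ^ n • o)
  have q2 := A.isRTree.zeroHyperbolic ((h ^ n)⁻¹ • o) (h ^ n • y) o ((h ^ n)⁻¹ • y)
  have q3 := A.isRTree.zeroHyperbolic ((h ^ n)⁻¹ • o) (h ^ n • o) o (h ^ n • y)
  have t0 := dist_triangle ((h ^ n)⁻¹ • y) o (h ^ n • y)
  have t1 := dist_triangle o (h ^ n • o) (h ^ n • y)
  have t2 := dist_triangle o (h ^ n • y) (h ^ n • o)
  have t3 := dist_triangle o ((h ^ n)⁻¹ • y) ((h ^ n)⁻¹ • o)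
  have t4 := dist_triangle ((h ^ n)⁻¹ • o) o (h ^ n • y)
  rw [dist_comm (h ^ n • y) (h ^ n • o)] at t2
  rw [dist_comm ((h ^ n)⁻¹ • y) ((h ^ n)⁻¹ • o)] at t3
  rw [dist_comm ((h ^ n)⁻¹ • o) o] at t4
  rw [dist_comm ((h ^ n)⁻¹ • o) o, dist_comm (h ^ n • y) (h ^ n • o),
    dist_comm (h ^ n • y) o] at q1
  rw [dist_comm ((h ^ n)⁻¹ • o) o, dist_comm (h ^ n • y) ((h ^ n)⁻¹ • y),
    dist_comm (h ^ n • y) o] at q2
  rw [dist_comm ((h ^ n)⁻¹ • o) o, dist_comm (h ^ n • o) o] at q3
  rw [e1, e2, e4, e3] at q1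
  rw [e2, e5] at q2
  rw [e1, e2, e3, e4] at q3
  rw [e1, e4] at t1 t2
  rw [e2, e5] at t3
  rw [e2] at t4
  apply le_antisymm ?_ t0
  have f1 : dist ((h ^ n)⁻¹ • o) (h ^ n • y) = n * L + dist o (h ^ n • y) := by
    apply le_antisymm t4
    rcases max_cases (n * L + dist o y)
      (dist ((h ^ n)⁻¹ • o) (h ^ n • y) + n * L) with hm | hm
    · rw [hm.1] at q3; nlinarith
    · rw [hm.1] at q3; linarith
  rw [f1] at q2
  rw [dist_comm ((h ^ n)⁻¹ • y) o]
  rcases max_cases (n * L + dist ((h ^ n)⁻¹ • y) (h ^ n • y))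
    (dist o y + dist o (h ^ n • y)) with hm | hm
  · rw [hm.1] at q2; linarith
  · rw [hm.1] at q2; linarith

/-- Translation lengths are invariant under conjugation. -/
theorem len_conj (c g : FreeGroup (Fin N)) : A.len (c * g * c⁻¹) = A.len g := by
  obtain ⟨x⟩ := A.isRTree.nonempty
  rw [A.len_eq (c * g * c⁻¹) (c • x), A.len_eq g x]
  have e1 : dist (c • x) ((c * g * c⁻¹) • (c * g * c⁻¹) • c • x) = dist x (g • g • x) := by
    rw [← dist_smul_smul A c x]
    congr 1
    simp only [← mul_smul]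
    congr 1
    group
  have e2 : dist (c • x) ((c * g * c⁻¹) • c • x) = dist x (g • x) := by
    rw [← dist_smul_smul A c x]
    congr 1
    simp only [← mul_smul]
    congr 1
    group
  rw [e1, e2]

/-- Translation lengths are invariant under inversion. -/
theorem len_inv (g : FreeGroup (Fin N)) : A.len g⁻¹ = A.len g := by
  obtain ⟨x⟩ := A.isRTree.nonempty
  rw [A.len_eq g⁻¹ x, A.len_eq g x]
  have e1 : dist x (g⁻¹ • g⁻¹ • x) = dist x (g • g • x) := by
    rw [← dist_smul_smul A (g * g) x]
    simp only [← mul_smul]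
    have : g * g * (g⁻¹ * g⁻¹) = 1 := by group
    rw [this, one_smul, dist_comm]
  have e2 : dist x (g⁻¹ • x) = dist x (g • x) := by
    rw [← dist_smul_smul A g x, smul_inv_smul, dist_comm]
  rw [e1, e2]

/-- Change of marking: the action is precomposed with an automorphism. -/
def twist (ψ : FreeGroup (Fin N) ≃* FreeGroup (Fin N)) : FTree N where
  T := A.T
  metric := A.metric
  action := MulAction.compHom A.T (ψ : FreeGroup (Fin N) →* FreeGroup (Fin N))
  isometric g x y := A.isometric (ψ g) x y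
  isRTree := A.isRTree

theorem twist_len (ψ : FreeGroup (Fin N) ≃* FreeGroup (Fin N)) (g : FreeGroup (Fin N)) :
    (twist A ψ).len g = A.len (ψ g) := rfl

theorem twist_inCV (ψ : FreeGroup (Fin N) ≃* FreeGroup (Fin N)) (h : A.InCV) :
    (twist A ψ).InCV := by
  obtain ⟨h1, h2, h3⟩ := h
  refine ⟨?_, ?_, ?_⟩
  · intro g x hx
    have := h1 (ψ g) x hx
    simpa using this
  · intro Y hne hconv hinv
    let Y' : Set A.T := Y
    refine h2 Y' hne hconv ?_
    intro g y hy
    have h4 : (ψ (ψ.symm g) • y : A.T) ∈ Y' := hinv (ψ.symm g) y hy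
    rw [ψ.apply_symm_apply] at h4
    exact h4
  · intro x
    obtain ⟨ε, hε, h⟩ := h3 x
    exact ⟨ε, hε, fun g hg => h (ψ g) hg⟩

theorem twist_covolume (ψ : FreeGroup (Fin N) ≃* FreeGroup (Fin N)) {c : ℝ}
    (h : HasCovolume A c) : HasCovolume (twist A ψ) c := by
  obtain ⟨n, x, y, hd, hs⟩ := h
  refine ⟨n, x, y, ⟨hd.ne, ?_, ?_, hd.opn⟩, hs⟩
  · intro p
    obtain ⟨i, g, h⟩ := hd.cover p
    refine ⟨i, ψ.symm g, ?_⟩
    show Btw (ψ (ψ.symm g) • x i) p (ψ (ψ.symm g) • y i)
    rw [ψ.apply_symm_apply]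
    exact h
  · intro i j g p h1 h2 h3 h4
    have := hd.disj i j (ψ g) p h1 h2 h3 h4
    refine ⟨?_, this.2⟩
    simpa using this.1

end general

/-! ### The trees -/

abbrev F3 := FreeGroup (Fin 3)

abbrev F2' := FreeGroup (Fin 2)

/-- The vertices: `(g, false) = g P`, `(g, true) = g Q`. -/
abbrev X := F2' × Bool

/-- A metric graph with three edges and the vertices `P`, `Q`, marked by a homomorphism to the free
group on the three edges; `τ` is a path from `P` to `Q`. -/
structure Dat where
  w : Fin 3 → ℝ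
  hw : ∀ i, 0 < w i
  φ : F2' →* F3
  inj : Function.Injective φ
  τ : F3
  xs : Fin 3 → X
  ys : Fin 3 → X

namespace Dat

variable (D : Dat)

/-- The position of a vertex in the Cayley tree of the free group of rank three. -/
def j (x : X) : F3 := D.φ x.1 * (if x.2 then D.τ else 1)

/-- translation of vertices -/
def mv (g : F2') : X ≃ X where
  toFun x := (g * x.1, x.2)
  invFun x := (g⁻¹ * x.1, x.2)
  left_inv x := by simp
  right_inv x := by simp

@[simp] theorem mv_apply (g h : F2') (b : Bool) : mv g (h, b) = (g * h, b) := rfl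

theorem mv_mul (g h : F2') (x : X) : mv (g * h) x = mv g (mv h x) := by
  obtain ⟨x, b⟩ := x
  simp [mul_assoc]

theorem mv_one (x : X) : mv 1 x = x := by
  obtain ⟨x, b⟩ := x
  simp

theorem j_mv (g : F2') (x : X) : D.j (mv g x) = D.φ g * D.j x := by
  obtain ⟨x, b⟩ := x
  cases b <;> simp [j, mul_assoc]

/-- the distance between vertices -/
noncomputable def hyp : Hull.Hyp X where
  d x y := wl D.w ((D.j x)⁻¹ * D.j y)
  self x := by rw [inv_mul_cancel]; simp [wl, W]
  symm x y := by rw [← wl_inv]; congr 1; group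
  um a x y z := by
    have e : ∀ x y : X, (D.j x)⁻¹ * D.j y = ((D.j a)⁻¹ * D.j x)⁻¹ * ((D.j a)⁻¹ * D.j y) := by
      intro x y; group
    rw [e x y, e y z, e x z, wl_gp, wl_gp, wl_gp]
    exact cp_um (fun i => (D.hw i).le) _ _ _

theorem hyp_d (x y : X) : D.hyp.d x y = wl D.w ((D.j x)⁻¹ * D.j y) := rfl

theorem hyp_d_mv (g : F2') (x y : X) : D.hyp.d (mv g x) (mv g y) = D.hyp.d x y := by
  rw [hyp_d, hyp_d, j_mv, j_mv]
  congr 1
  group

noncomputable instance : MulAction F2' D.hyp.Pt where
  smul g f := ⟨fun z => f.1 (mv g⁻¹ z), by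
    obtain ⟨f, a, b, t, h0, h1, rfl⟩ := f
    refine ⟨mv g a, mv g b, t, h0, ?_, ?_⟩
    · rw [hyp_d_mv]; exact h1
    · have := D.hyp.pt_smul (mv g) (fun x y => D.hyp_d_mv g x y) a b t
      rw [← this]
      rfl⟩
  one_smul f := by
    apply Subtype.ext
    funext z
    show f.1 (mv 1⁻¹ z) = f.1 z
    rw [inv_one, mv_one]
  mul_smul g h f := by
    apply Subtype.ext
    funext z
    show f.1 (mv (g * h)⁻¹ z) = f.1 (mv h⁻¹ (mv g⁻¹ z))
    rw [mul_inv_rev, mv_mul]

theorem smul_apply (g : F2') (f : D.hyp.Pt) (z : X) : (g • f).1 z = f.1 (mv g⁻¹ z) := rfl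

theorem mv_inv_symm (g : F2') (x : X) : mv g (mv g⁻¹ x) = x := by
  rw [← mv_mul, mul_inv_cancel, mv_one]

/-- The tree with an action of the free group. -/
noncomputable def tree : FTree 2 where
  T := D.hyp.Pt
  metric := inferInstance
  action := inferInstance
  isometric g f h := by
    show (⨆ z, |f.1 (mv g⁻¹ z) - h.1 (mv g⁻¹ z)|) = ⨆ z, |f.1 z - h.1 z|
    exact (mv g⁻¹).iSup_comp (g := fun z => |f.1 z - h.1 z|)
  isRTree :=
    { nonempty := ⟨D.hyp.v (1, false)⟩
      geodesic := D.hyp.geodesic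
      zeroHyperbolic := D.hyp.four_point }

/-- The vertices of the tree. -/
noncomputable def v (x : X) : D.tree.T := D.hyp.v x

theorem smul_v (g : F2') (x : X) : g • D.v x = D.v (mv g x) := by
  apply Subtype.ext
  funext z
  show (D.hyp.v x).1 (mv g⁻¹ z) = (D.hyp.v (mv g x)).1 z
  rw [D.hyp.v_apply, D.hyp.v_apply, ← D.hyp_d_mv g, mv_inv_symm]

theorem dist_v (x y : X) : dist (D.v x) (D.v y) = wl D.w ((D.j x)⁻¹ * D.j y) :=
  D.hyp.dist_v x y

/-- The base point. -/
noncomputable def base : D.tree.T := D.v (1, false)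

theorem dist_base (g : F2') : dist D.base (g • D.base) = wl D.w (D.φ g) := by
  unfold base
  rw [smul_v, dist_v, j_mv]
  simp [j]

theorem len_tree (g : F2') :
    D.tree.len g = max 0 (wl D.w (D.φ (g * g)) - wl D.w (D.φ g)) := by
  rw [FTree.len_eq _ g D.base, ← mul_smul, dist_base, dist_base]

theorem span (f : D.tree.T) : ∃ a b : X, Btw (D.v a) f (D.v b) := D.hyp.mem_segment f

/-! first letters -/

/-- the reduced word starts with the edge `i` -/
def hd (c : F3) (i : Fin 3) : Prop := c.toWord.head? = some (i, true)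

instance (c : F3) (i : Fin 3) : Decidable (hd c i) := by unfold hd; infer_instance

theorem wl_hd {w : Fin 3 → ℝ} {c : F3} {i : Fin 3} (h : hd c i) :
    wl w ((FreeGroup.of i)⁻¹ * c) = wl w c - w i := by
  have h1 := wl_inv_mul (w := w) [(i, true)] c.toWord (List.isChain_singleton _)
    FreeGroup.isReduced_toWord
  rw [FreeGroup.mk_toWord] at h1
  have e : (FreeGroup.mk [(i, true)] : F3) = FreeGroup.of i := rfl
  rw [e] at h1
  rw [h1]
  unfold hd at h
  cases hc : c.toWord with
  | nil => rw [hc] at h; simp at h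
  | cons y l =>
    rw [hc] at h
    simp at h
    subst h
    simp only [cp, if_true, W_cons, W_nil]
    unfold wl
    rw [hc, W_cons]
    ring

theorem wl_not_hd {w : Fin 3 → ℝ} {c : F3} {i : Fin 3} (h : ¬ hd c i) :
    wl w ((FreeGroup.of i)⁻¹ * c) = wl w c + w i := by
  have h1 := wl_inv_mul (w := w) [(i, true)] c.toWord (List.isChain_singleton _)
    FreeGroup.isReduced_toWord
  rw [FreeGroup.mk_toWord] at h1
  have e : (FreeGroup.mk [(i, true)] : F3) = FreeGroup.of i := rfl
  rw [e] at h1
  rw [h1]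
  unfold hd at h
  cases hc : c.toWord with
  | nil =>
    simp only [cp, W_cons, W_nil]
    unfold wl
    rw [hc, W_nil]
    ring
  | cons y l =>
    rw [hc] at h
    have h2 : ¬ ((i, true) = y) := by
      intro h3
      apply h
      simp [h3]
    simp only [cp, if_neg h2, W_cons, W_nil]
    unfold wl
    rw [hc, W_cons]
    ring

theorem toWord_mul_of (c : F3) (j : Fin 3) :
    (c * FreeGroup.of j).toWord = c.toWord ++ [(j, true)] ∨
    c.toWord = (c * FreeGroup.of j).toWord ++ [(j, false)] := by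
  by_cases h : c.toWord.getLast? = some (j, false)
  · right
    obtain ⟨l, hl⟩ : ∃ l, c.toWord = l ++ [(j, false)] := by
      rw [List.getLast?_eq_some_iff] at h
      exact h
    have hred : FreeGroup.IsReduced (l ++ [(j, false)]) := by
      rw [← hl]; exact FreeGroup.isReduced_toWord
    have hl' : FreeGroup.IsReduced l := (List.isChain_append.1 hred).1
    have e : c * FreeGroup.of j = FreeGroup.mk l := by
      have e1 : c = FreeGroup.mk l * (FreeGroup.of j)⁻¹ := by
        rw [← FreeGroup.mk_toWord (x := c), hl, ← FreeGroup.mul_mk]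
        rfl
      rw [e1]; group
    rw [e, FreeGroup.toWord_mk, hl'.reduce_eq, hl]
  · left
    have hred : FreeGroup.IsReduced (c.toWord ++ [(j, true)]) := by
      unfold FreeGroup.IsReduced
      rw [List.isChain_append]
      refine ⟨FreeGroup.isReduced_toWord, List.isChain_singleton _, ?_⟩
      intro x hx y hy
      simp at hy
      subst hy
      intro hxj
      simp only at hxj ⊢
      by_contra hne
      apply h
      have : x = (j, false) := by
        refine Prod.ext hxj ?_
        simpa using hne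
      rw [← this]
      exact hx
    have e : c * FreeGroup.of j = FreeGroup.mk (c.toWord ++ [(j, true)]) := by
      rw [← FreeGroup.mul_mk, FreeGroup.mk_toWord]; rfl
    rw [e, FreeGroup.toWord_mk, hred.reduce_eq]

theorem hd_mul {c : F3} {i j : Fin 3} (h : hd c i) : hd (c * FreeGroup.of j) i := by
  unfold hd at *
  rcases toWord_mul_of c j with h1 | h1
  · rw [h1]
    cases hc : c.toWord with
    | nil => rw [hc] at h; simp at h
    | cons y l => rw [hc] at h; simpa using h
  · cases hc : (c * FreeGroup.of j).toWord with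
    | nil => rw [h1, hc] at h; simp at h
    | cons y l => rw [h1, hc] at h; simpa using h

theorem eq_of_hd {c : F3} {i j : Fin 3} (h : ¬ hd c i) (h2 : hd (c * FreeGroup.of j) i) :
    c = 1 ∧ i = j := by
  unfold hd at *
  rcases toWord_mul_of c j with h1 | h1
  · rw [h1] at h2
    cases hc : c.toWord with
    | nil =>
      rw [hc] at h2
      simp at h2
      refine ⟨?_, h2.symm⟩
      rw [← FreeGroup.mk_toWord (x := c), hc]
      rfl
    | cons y l =>
      rw [hc] at h h2
      exact absurd (by simpa using h2) h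
  · exfalso
    apply h
    cases hc : (c * FreeGroup.of j).toWord with
    | nil => rw [hc] at h2; simp at h2
    | cons y l => rw [h1, hc]; rw [hc] at h2; simpa using h2

/-! the fundamental domain -/

/-- `xs i → ys i` is a lift of the edge `i`. -/
def Edges : Prop := ∀ i, (D.j (D.xs i))⁻¹ * D.j (D.ys i) = FreeGroup.of i

theorem wl_of (w : Fin 3 → ℝ) (i : Fin 3) : wl w (FreeGroup.of i) = w i := by
  have : (FreeGroup.of i : F3) = FreeGroup.mk [(i, true)] := rfl
  rw [this, wl_mk (List.isChain_singleton _), W_cons, W_nil, add_zero]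

variable {D}

theorem dist_edge (hE : D.Edges) (i : Fin 3) : dist (D.v (D.xs i)) (D.v (D.ys i)) = D.w i := by
  rw [dist_v, hE, wl_of]

theorem smul_xs (g : F2') (x : X) : g • D.v x = D.v (mv g x) := D.smul_v g x

theorem edge_mv (hE : D.Edges) (g : F2') (i : Fin 3) :
    (D.j (mv g (D.xs i)))⁻¹ * D.j (mv g (D.ys i)) = FreeGroup.of i := by
  rw [j_mv, j_mv, ← hE i]; group

/-- distance from an interior point of an edge to a vertex -/
theorem dist_inner (hE : D.Edges) {i : Fin 3} {p : D.tree.T}
    (hp : Btw (D.v (D.xs i)) p (D.v (D.ys i))) (z : X) :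
    dist p (D.v z) = if hd ((D.j (D.xs i))⁻¹ * D.j z) i
      then dist (D.v (D.ys i)) (D.v z) + dist p (D.v (D.ys i))
      else dist (D.v (D.xs i)) (D.v z) + dist (D.v (D.xs i)) p := by
  have h1 := btw_dist D.tree.isRTree hp (D.v z)
  have h2 : dist (D.v (D.ys i)) (D.v z) =
      wl D.w ((FreeGroup.of i)⁻¹ * ((D.j (D.xs i))⁻¹ * D.j z)) := by
    rw [dist_v, ← hE i]
    congr 1
    group
  have h3 : dist (D.v (D.xs i)) (D.v z) = wl D.w ((D.j (D.xs i))⁻¹ * D.j z) := D.dist_v _ _
  have hp' : dist (D.v (D.xs i)) p + dist p (D.v (D.ys i)) = D.w i := by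
    rw [← dist_edge hE i]; exact hp
  have n1 : 0 ≤ dist (D.v (D.xs i)) p := dist_nonneg
  have n2 : 0 ≤ dist p (D.v (D.ys i)) := dist_nonneg
  rw [h1]
  split_ifs with h
  · rw [wl_hd h] at h2
    rw [max_eq_left]
    · rw [h2, h3]; linarith
    · rw [h2, h3, dist_comm (D.v (D.ys i)) p]; linarith
  · rw [wl_not_hd h] at h2
    rw [max_eq_right]
    · rw [h2, h3, dist_comm (D.v (D.ys i)) p]; linarith
    · rw [h2, h3, dist_comm (D.v (D.ys i)) p]; linarith

theorem disj (hE : D.Edges) (i k : Fin 3) (g : F2') (p : D.tree.T)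
    (hp : Btw (D.v (D.xs i)) p (D.v (D.ys i))) (hx : p ≠ D.v (D.xs i)) (hy : p ≠ D.v (D.ys i))
    (hq : Btw (g • D.v (D.xs k)) p (g • D.v (D.ys k))) : g = 1 ∧ i = k := by
  rw [smul_v, smul_v] at hq
  set x' := mv g (D.xs k) with hx'
  set y' := mv g (D.ys k) with hy'
  have hxy : (D.j x')⁻¹ * D.j y' = FreeGroup.of k := edge_mv hE g k
  have hc : (D.j (D.xs i))⁻¹ * D.j y' = ((D.j (D.xs i))⁻¹ * D.j x') * FreeGroup.of k := by
    rw [← hxy]; group
  have hd' : dist (D.v x') (D.v y') = D.w k := by rw [dist_v, hxy, wl_of]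
  have hq' : dist p (D.v x') + dist p (D.v y') = dist (D.v x') (D.v y') := by
    rw [dist_comm p (D.v x')]; exact hq
  have t1 := dist_triangle_left (D.v x') (D.v y') (D.v (D.xs i))
  have t2 := dist_triangle_left (D.v x') (D.v y') (D.v (D.ys i))
  have px : 0 < dist (D.v (D.xs i)) p := dist_pos.2 (Ne.symm hx)
  have py : 0 < dist p (D.v (D.ys i)) := dist_pos.2 hy
  rw [dist_inner hE hp x', dist_inner hE hp y', hc] at hq'
  by_cases h1 : hd ((D.j (D.xs i))⁻¹ * D.j x') i
  · rw [if_pos h1, if_pos (hd_mul h1)] at hq'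
    linarith
  · by_cases h2 : hd ((D.j (D.xs i))⁻¹ * D.j x' * FreeGroup.of k) i
    · obtain ⟨h3, h4⟩ := eq_of_hd h1 h2
      refine ⟨?_, h4⟩
      subst h4
      rw [hx', j_mv] at h3
      have h5 : D.φ g = 1 := by
        have : D.φ g = D.j (D.xs i) * ((D.j (D.xs i))⁻¹ * (D.φ g * D.j (D.xs i))) *
          (D.j (D.xs i))⁻¹ := by group
        rw [this, h3]; group
      exact D.inj (by rw [h5, map_one])
    · rw [if_neg h1, if_neg h2] at hq'
      linarith

/-- points which are covered by the translates of the edges -/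
def Cov (D : Dat) (p : D.tree.T) : Prop := ∃ (i : Fin 3) (g : F2'),
  Btw (g • D.v (D.xs i)) p (g • D.v (D.ys i))

theorem Cov.smul {p : D.tree.T} (h : Cov D p) (g : F2') : Cov D (g • p) := by
  obtain ⟨i, h, hp⟩ := h
  refine ⟨i, g * h, ?_⟩
  have := hp.smul g
  rwa [← mul_smul, ← mul_smul] at this

/-- segments between two vertices which are covered -/
def S (D : Dat) (x y : X) : Prop := ∀ p : D.tree.T, Btw (D.v x) p (D.v y) → Cov D p

theorem S.symm {x y : X} (h : S D x y) : S D y x := fun p hp => h p hp.symm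

theorem S.trans {x y z : X} (h1 : S D x y) (h2 : S D y z) : S D x z := by
  intro p hp
  rcases btw_split D.tree.isRTree hp (D.v y) with h | h
  · exact h1 p h
  · exact h2 p h

theorem S.mv {x y : X} (h : S D x y) (g : F2') : S D (mv g x) (mv g y) := by
  intro p hp
  have h1 : Btw (g⁻¹ • D.v (Dat.mv g x)) (g⁻¹ • p) (g⁻¹ • D.v (Dat.mv g y)) := hp.smul g⁻¹
  rw [smul_v, smul_v, ← mv_mul, ← mv_mul, inv_mul_cancel, mv_one, mv_one] at h1
  have := (h _ h1).smul g
  rwa [smul_inv_smul] at this

theorem S.edge (D : Dat) (i : Fin 3) : S D (D.xs i) (D.ys i) := by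
  intro p hp
  exact ⟨i, 1, by rwa [one_smul, one_smul]⟩

theorem S_all (h0 : S D (1, false) (FreeGroup.of 0, false))
    (h1 : S D (1, false) (FreeGroup.of 1, false)) (h2 : S D (1, false) (1, true)) :
    ∀ x y, S D x y := by
  have a1 : ∀ g : F2', S D (1, false) (g, false) := by
    intro g
    have hg : g ∈ Subgroup.closure (Set.range (FreeGroup.of : Fin 2 → F2')) := by
      rw [FreeGroup.closure_range_of]; trivial
    induction hg using Subgroup.closure_induction_right with
    | one => exact h0.trans h0.symm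
    | mul_right g _ y hy ih =>
      obtain ⟨i, rfl⟩ := hy
      refine ih.trans ?_
      fin_cases i
      · have := h0.mv g; simpa using this
      · have := h1.mv g; simpa using this
    | mul_inv_cancel g _ y hy ih =>
      obtain ⟨i, rfl⟩ := hy
      refine ih.trans ?_
      fin_cases i
      · have := (h0.mv (g * (FreeGroup.of 0)⁻¹)).symm; simpa using this
      · have := (h1.mv (g * (FreeGroup.of 1)⁻¹)).symm; simpa using this
  have a2 : ∀ x : X, S D (1, false) x := by
    rintro ⟨g, b⟩
    cases b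
    · exact a1 g
    · refine (a1 g).trans ?_
      have := h2.mv g
      simpa using this
  intro x y
  exact (a2 x).symm.trans (a2 y)

theorem edgeDomain (hE : D.Edges) (hS : ∀ x y, S D x y) :
    IsEdgeDomain D.tree (fun i => D.v (D.xs i)) (fun i => D.v (D.ys i)) := by
  refine ⟨?_, ?_, ?_, ?_⟩
  · intro i h
    have h1 := dist_edge hE i
    have h2 : dist (D.v (D.xs i)) (D.v (D.ys i)) = 0 := by
      rw [show D.v (D.xs i) = D.v (D.ys i) from h, dist_self]
    have := D.hw i
    linarith
  · intro p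
    obtain ⟨a, b, hab⟩ := D.span p
    exact hS a b p hab
  · intro i k g p h1 h2 h3 h4
    exact disj hE i k g p h1 h2 h3 h4
  · intro i p hp hx hy
    have px : 0 < dist (D.v (D.xs i)) p := dist_pos.2 (Ne.symm hx)
    have py : 0 < dist p (D.v (D.ys i)) := dist_pos.2 hy
    refine ⟨min (dist (D.v (D.xs i)) p) (dist p (D.v (D.ys i))), lt_min px py, ?_⟩
    intro q hq
    obtain ⟨a, b, hab⟩ := D.span q
    obtain ⟨k, g, hk⟩ := hS a b q hab
    rw [smul_v, smul_v] at hk
    set x' := mv g (D.xs k) with hx'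
    set y' := mv g (D.ys k) with hy'
    have hxy : (D.j x')⁻¹ * D.j y' = FreeGroup.of k := edge_mv hE g k
    have hc : (D.j (D.xs i))⁻¹ * D.j y' = ((D.j (D.xs i))⁻¹ * D.j x') * FreeGroup.of k := by
      rw [← hxy]; group
    have e0 := btw_dist D.tree.isRTree hk p
    have e1 := dist_inner hE hp x'
    have e2 := dist_inner hE hp y'
    have e3 := btw_dist D.tree.isRTree hk (D.v (D.xs i))
    have e4 := btw_dist D.tree.isRTree hk (D.v (D.ys i))
    rw [hc] at e2
    rw [lt_min_iff] at hq
    by_cases h1 : hd ((D.j (D.xs i))⁻¹ * D.j x') i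
    · exfalso
      rw [if_pos h1, dist_comm] at e1
      rw [if_pos (hd_mul h1), dist_comm] at e2
      rw [e1, e2] at e0
      have : dist q p = dist q (D.v (D.ys i)) + dist p (D.v (D.ys i)) := by
        rw [e0, e4, dist_comm (D.v x') (D.v (D.ys i)), dist_comm (D.v y') (D.v (D.ys i)),
          ← max_add_add_right]
        congr 1 <;> ring
      have n1 : 0 ≤ dist q (D.v (D.ys i)) := dist_nonneg
      rw [dist_comm q p] at this
      linarith [hq.2]
    · by_cases h2 : hd ((D.j (D.xs i))⁻¹ * D.j x' * FreeGroup.of k) i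
      · obtain ⟨h3, h4⟩ := eq_of_hd h1 h2
        subst h4
        rw [hx', j_mv] at h3
        have h5 : D.φ g = 1 := by
          have : D.φ g = D.j (D.xs i) * ((D.j (D.xs i))⁻¹ * (D.φ g * D.j (D.xs i))) *
            (D.j (D.xs i))⁻¹ := by group
          rw [this, h3]; group
        have h6 : g = 1 := D.inj (by rw [h5, map_one])
        rw [hx', hy', h6, mv_one, mv_one] at hk
        exact hk
      · exfalso
        rw [if_neg h1, dist_comm] at e1
        rw [if_neg h2, dist_comm] at e2
        rw [e1, e2] at e0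
        have : dist q p = dist q (D.v (D.xs i)) + dist (D.v (D.xs i)) p := by
          rw [e0, e3, dist_comm (D.v x') (D.v (D.xs i)), dist_comm (D.v y') (D.v (D.xs i)),
            ← max_add_add_right]
          congr 1 <;> ring
        have n1 : 0 ≤ dist q (D.v (D.xs i)) := dist_nonneg
        rw [dist_comm q p] at this
        linarith [hq.1]

theorem covolume (hE : D.Edges) (hS : ∀ x y, S D x y) :
    HasCovolume D.tree (D.w 0 + D.w 1 + D.w 2) := by
  refine ⟨3, _, _, edgeDomain hE hS, ?_⟩
  rw [Fin.sum_univ_three, dist_edge hE, dist_edge hE, dist_edge hE]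

theorem len_ge (D : Dat) {ε : ℝ} (hε : 0 ≤ ε) (hw : ∀ i, ε ≤ D.w i) {g : F2'} (hg : g ≠ 1) :
    ε ≤ D.tree.len g := by
  rw [len_tree]
  refine le_trans ?_ (le_max_right _ _)
  rw [map_mul]
  refine wl_sq hε hw _ ?_
  intro h
  exact hg (D.inj (by rw [h, map_one]))

theorem inCV (D : Dat) {ε : ℝ} (hε : 0 < ε) (hw : ∀ i, ε ≤ D.w i) (h : F2')
    (hpos : 0 < wl D.w (D.φ h)) (hpow : ∀ n : ℕ, wl D.w (D.φ (h ^ n)) = n * wl D.w (D.φ h))
    (a b : F2') (hQ : Btw (a • D.base) (D.v (1, true)) (b • D.base)) : D.tree.InCV := by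
  refine ⟨?_, ?_, ?_⟩
  · intro g x hx
    by_contra hg
    have h1 := D.tree.le_dist g x
    rw [hx, dist_self] at h1
    have := len_ge D hε.le hw hg
    linarith
  · intro Y hne hconv hinv
    have ho : D.base ∈ Y := mem_of_axis D.tree hpos (h := h) (fun n => by
      rw [dist_base, hpow]) Y hne hconv hinv
    have hq : D.v (1, true) ∈ Y := hconv _ (hinv a _ ho) _ (hinv b _ ho) _ hQ
    have hall : ∀ x : X, D.v x ∈ Y := by
      rintro ⟨g, b⟩
      cases b
      · have := hinv g _ ho
        unfold base at this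
        rw [smul_v] at this
        simpa using this
      · have := hinv g _ hq
        rw [smul_v] at this
        simpa using this
    ext f
    simp only [Set.mem_univ, iff_true]
    obtain ⟨a, b, hab⟩ := D.span f
    exact hconv _ (hall a) _ (hall b) f hab
  · intro x
    refine ⟨ε, hε, fun g hg => ?_⟩
    have hg1 : g ≠ 1 := by
      rintro rfl
      exact hg (one_smul _ _)
    exact le_trans (len_ge D hε.le hw hg1) (D.tree.le_dist g x)

end Dat

end Pool.Agent.R692.CV
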