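import Mathlib
import Pool.Agent.R692.CV.Prim
import Pool.Agent.R692.CV.Tree

set_option autoImplicit false

/-!
# A theta tree and a dumbbell tree of co-volume one
-/

namespace Pool.Agent.R692.CV

open Pool.Agent.H472R3 Dat

theorem hom2_ext' {G : Type} [Group G] {f g : F2' →* G} (h0 : f (.of 0) = g (.of 0))
    (h1 : f (.of 1) = g (.of 1)) : f = g := by
  ext i
  fin_cases i
  · exact h0
  · exact h1

/-! ### The theta graph -/

def phiT : F2' →* F3 := FreeGroup.lift ![.of 0 * (.of 2)⁻¹, .of 1 * (.of 2)⁻¹]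

@[simp] theorem phiT_zero : phiT (.of 0) = .of 0 * (.of 2)⁻¹ := by simp [phiT]
@[simp] theorem phiT_one : phiT (.of 1) = .of 1 * (.of 2)⁻¹ := by simp [phiT]

theorem phiT_inj : Function.Injective phiT := by
  have h : (FreeGroup.lift ![(.of 0 : F2'), .of 1, 1] : F3 →* F2').comp phiT = MonoidHom.id _ :=
    hom2_ext' (by simp) (by simp)
  intro x y hxy
  have h1 := DFunLike.congr_fun h x
  have h2 := DFunLike.congr_fun h y
  simp only [MonoidHom.comp_apply, MonoidHom.id_apply] at h1 h2
  rw [← h1, ← h2, hxy]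

noncomputable def wT : Fin 3 → ℝ := ![1/10, 7/10, 2/10]

theorem wT0 : wT 0 = 1 / 10 := rfl
theorem wT1 : wT 1 = 7 / 10 := rfl
theorem wT2 : wT 2 = 2 / 10 := rfl

theorem wT_ge (i : Fin 3) : 1 / 10 ≤ wT i := by
  fin_cases i
  · exact wT0.ge
  · show 1 / 10 ≤ wT 1
    rw [wT1]; norm_num
  · show 1 / 10 ≤ wT 2
    rw [wT2]; norm_num

noncomputable def DT : Dat where
  w := wT
  hw i := lt_of_lt_of_le (by norm_num) (wT_ge i)
  φ := phiT
  inj := phiT_inj
  τ := .of 2
  xs := ![(1, false), (1, false), (1, false)]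
  ys := ![(.of 0, true), (.of 1, true), (1, true)]

theorem DT_edges : DT.Edges := by
  intro i
  fin_cases i
  · simp [DT, j]
  · simp [DT, j]
  · simp [DT, j]

/-- positive words -/
def pw (u : List (Fin 2)) : F2' := (u.map FreeGroup.of).prod

def lT (u : List (Fin 2)) : List (Fin 3 × Bool) :=
  u.flatMap (fun i => [(i.castSucc, true), (2, false)])

theorem phiT_pw (u : List (Fin 2)) : phiT (pw u) = FreeGroup.mk (lT u) := by
  induction u with
  | nil => simp [pw, lT]; rfl
  | cons i u ih =>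
    have h1 : pw (i :: u) = .of i * pw u := by simp [pw]
    have h2 : lT (i :: u) = [(i.castSucc, true), (2, false)] ++ lT u := by simp [lT]
    rw [h1, h2, map_mul, ih, ← FreeGroup.mul_mk]
    congr 1
    fin_cases i
    · rw [show (FreeGroup.of (((fun i => i) ⟨0, by omega⟩) : Fin 2) : F2') = .of 0 from rfl, phiT_zero]
      rfl
    · rw [show (FreeGroup.of (((fun i => i) ⟨1, by omega⟩) : Fin 2) : F2') = .of 1 from rfl, phiT_one]
      rfl

theorem lT_red (u : List (Fin 2)) : FreeGroup.IsReduced (lT u) := by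
  unfold FreeGroup.IsReduced
  induction u with
  | nil => simp [lT]
  | cons i u ih =>
    have h2 : lT (i :: u) = (i.castSucc, true) :: (2, false) :: lT u := by simp [lT]
    rw [h2, List.isChain_cons_cons]
    constructor
    · intro h
      exfalso
      revert h
      fin_cases i <;> simp
    · cases u with
      | nil => simp [lT]
      | cons k u =>
        have h3 : lT (k :: u) = (k.castSucc, true) :: (2, false) :: lT u := by simp [lT]
        rw [h3] at ih ⊢
        rw [List.isChain_cons_cons]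
        refine ⟨?_, ih⟩
        intro h
        exfalso
        revert h
        fin_cases k <;> simp

theorem wl_pw (u : List (Fin 2)) :
    wl wT (phiT (pw u)) = (u.map (fun i => if i = 0 then (3 / 10 : ℝ) else 9 / 10)).sum := by
  rw [phiT_pw, wl_mk (lT_red u)]
  induction u with
  | nil => simp [lT, W]
  | cons i u ih =>
    have h2 : lT (i :: u) = [(i.castSucc, true), (2, false)] ++ lT u := by simp [lT]
    rw [h2, W_append, ih, List.map_cons, List.sum_cons, W_cons, W_cons, W_nil]
    congr 1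
    fin_cases i
    · show wT 0 + (wT 2 + 0) = _
      norm_num [wT0, wT2]
    · show wT 1 + (wT 2 + 0) = _
      norm_num [wT1, wT2]

theorem pw_append (u v : List (Fin 2)) : pw (u ++ v) = pw u * pw v := by simp [pw]

theorem len_pw (u : List (Fin 2)) :
    DT.tree.len (pw u) = (u.map (fun i => if i = 0 then (3 / 10 : ℝ) else 9 / 10)).sum := by
  rw [len_tree, ← pw_append]
  show max 0 (wl wT (phiT (pw (u ++ u))) - wl wT (phiT (pw u))) = _
  rw [wl_pw, wl_pw, List.map_append, List.sum_append, add_sub_cancel_right]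
  apply max_eq_right
  apply List.sum_nonneg
  intro x hx
  rw [List.mem_map] at hx
  obtain ⟨i, _, rfl⟩ := hx
  split_ifs <;> norm_num

theorem pow_pw (n : ℕ) : (FreeGroup.of 0 : F2') ^ n = pw (List.replicate n 0) := by
  simp [pw]

theorem wlT_pow (n : ℕ) : wl wT (phiT ((FreeGroup.of 0) ^ n)) = n * (3 / 10) := by
  rw [pow_pw, wl_pw]
  simp

theorem DT_pow (n : ℕ) : DT.tree.len ((FreeGroup.of 0) ^ n) = n * (3 / 10) := by
  rw [pow_pw, len_pw]
  simp

def uB (ms : List ℕ) : List (Fin 2) := ms.flatMap (fun m => List.replicate (m + 1) 0 ++ [1])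

theorem pblk_pw (ms : List ℕ) : pblk ms = pw (uB ms) := by
  induction ms with
  | nil => simp [pblk, pw, uB]
  | cons m ms ih =>
    have h1 : pblk (m :: ms) = (FreeGroup.of 0 : F2') ^ (m + 1) * .of 1 * pblk ms := by
      simp [pblk]
    have h2 : uB (m :: ms) = (List.replicate (m + 1) 0 ++ [1]) ++ uB ms := by simp [uB]
    rw [h1, h2, ih, pw_append, pw_append, pow_pw]
    simp [pw]

noncomputable def sB (ms : List ℕ) : ℝ := (ms.map (fun m : ℕ => ((m : ℝ) + 1) * (3 / 10) + 9 / 10)).sum

theorem DT_pblk (ms : List ℕ) : DT.tree.len (pblk ms) = sB ms := by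
  rw [pblk_pw, len_pw]
  induction ms with
  | nil => simp [uB, sB]
  | cons m ms ih =>
    have h2 : uB (m :: ms) = (List.replicate (m + 1) 0 ++ [1]) ++ uB ms := by simp [uB]
    rw [h2, List.map_append, List.sum_append, ih]
    simp [sB]

theorem DT_b : DT.tree.len (.of 1) = 9 / 10 := by
  have h : (FreeGroup.of 1 : F2') = pw [1] := by simp [pw]
  rw [h, len_pw]
  simp

theorem DT_S : ∀ x y, S DT x y := by
  have e0 : S DT (1, false) (.of 0, true) := S.edge DT 0
  have e1 : S DT (1, false) (.of 1, true) := S.edge DT 1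
  have e2 : S DT (1, false) (1, true) := S.edge DT 2
  refine S_all ?_ ?_ e2
  · refine e0.trans ?_
    have := (e2.mv (.of 0)).symm
    simpa using this
  · refine e1.trans ?_
    have := (e2.mv (.of 1)).symm
    simpa using this

theorem DT_cov : HasCovolume DT.tree 1 := by
  have := covolume DT_edges DT_S
  have e : DT.w 0 + DT.w 1 + DT.w 2 = 1 := by
    show wT 0 + wT 1 + wT 2 = 1
    norm_num [wT0, wT1, wT2]
  rwa [e] at this

theorem DT_inCV : DT.tree.InCV := by
  have h1 : wl DT.w (DT.φ (.of 0)) = 3 / 10 := by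
    have := wlT_pow 1
    rw [pow_one] at this
    show wl wT (phiT (.of 0)) = _
    rw [this]; norm_num
  refine inCV DT (ε := 1 / 10) (by norm_num) wT_ge (.of 0) (by rw [h1]; norm_num) ?_
    (.of 0)⁻¹ 1 ?_
  · intro n
    rw [h1]
    exact wlT_pow n
  · unfold Btw base
    rw [smul_v, smul_v, dist_v, dist_v, dist_v]
    have e1 : (DT.j (mv (.of 0)⁻¹ (1, false)))⁻¹ * DT.j (1, true) = .of 0 := by
      simp [DT, j]
    have e2 : (DT.j (1, true))⁻¹ * DT.j (mv 1 (1, false)) = (.of 2)⁻¹ := by
      simp [DT, j]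
    have e3 : (DT.j (mv (.of 0)⁻¹ (1, false)))⁻¹ * DT.j (mv 1 (1, false)) = DT.φ (.of 0) := by
      simp [j]
    rw [e1, e2, e3, h1, wl_of, wl_inv, wl_of]
    show wT 0 + wT 2 = _
    norm_num [wT0, wT1, wT2]

/-! ### The dumbbell graph -/

def phiD : F2' →* F3 := FreeGroup.lift ![.of 0, .of 1 * .of 2 * (.of 1)⁻¹]

@[simp] theorem phiD_zero : phiD (.of 0) = .of 0 := by simp [phiD]
@[simp] theorem phiD_one : phiD (.of 1) = .of 1 * .of 2 * (.of 1)⁻¹ := by simp [phiD]

theorem phiD_inj : Function.Injective phiD := by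
  have h : (FreeGroup.lift ![(.of 0 : F2'), 1, .of 1] : F3 →* F2').comp phiD = MonoidHom.id _ :=
    hom2_ext' (by simp) (by simp)
  intro x y hxy
  have h1 := DFunLike.congr_fun h x
  have h2 := DFunLike.congr_fun h y
  simp only [MonoidHom.comp_apply, MonoidHom.id_apply] at h1 h2
  rw [← h1, ← h2, hxy]

noncomputable def wD : Fin 3 → ℝ := ![3/10, 2/10, 5/10]

theorem wD0 : wD 0 = 3 / 10 := rfl
theorem wD1 : wD 1 = 2 / 10 := rfl
theorem wD2 : wD 2 = 5 / 10 := rfl

theorem wD_ge (i : Fin 3) : 1 / 10 ≤ wD i := by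
  fin_cases i
  · show 1 / 10 ≤ wD 0
    rw [wD0]; norm_num
  · show 1 / 10 ≤ wD 1
    rw [wD1]; norm_num
  · show 1 / 10 ≤ wD 2
    rw [wD2]; norm_num

noncomputable def DD : Dat where
  w := wD
  hw i := lt_of_lt_of_le (by norm_num) (wD_ge i)
  φ := phiD
  inj := phiD_inj
  τ := .of 1
  xs := ![(1, false), (1, false), (1, true)]
  ys := ![(.of 0, false), (1, true), (.of 1, true)]

theorem DD_edges : DD.Edges := by
  intro i
  fin_cases i
  · simp [DD, j]
  · simp [DD, j]
  · simp [DD, j, mul_assoc]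

theorem DD_S : ∀ x y, S DD x y := by
  have e0 : S DD (1, false) (.of 0, false) := S.edge DD 0
  have e1 : S DD (1, false) (1, true) := S.edge DD 1
  have e2 : S DD (1, true) (.of 1, true) := S.edge DD 2
  refine S_all e0 ?_ e1
  refine e1.trans (e2.trans ?_)
  have := (e1.mv (.of 1)).symm
  simpa using this

theorem DD_cov : HasCovolume DD.tree 1 := by
  have := covolume DD_edges DD_S
  have e : DD.w 0 + DD.w 1 + DD.w 2 = 1 := by
    show wD 0 + wD 1 + wD 2 = 1
    norm_num [wD0, wD1, wD2]
  rwa [e] at this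

theorem phiD_pow (n : ℕ) : phiD ((.of 0) ^ n) = FreeGroup.mk (List.replicate n (0, true)) := by
  rw [map_pow, phiD_zero]
  induction n with
  | zero => rfl
  | succ n ih =>
    rw [pow_succ', ih, List.replicate_succ]
    have : (FreeGroup.of 0 : F3) = FreeGroup.mk [(0, true)] := rfl
    rw [this, FreeGroup.mul_mk]
    rfl

theorem red_replicate (n : ℕ) : FreeGroup.IsReduced (List.replicate n ((0 : Fin 3), true)) := by
  unfold FreeGroup.IsReduced
  exact List.isChain_replicate_of_rel _ (fun _ => rfl)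

theorem wlD_pow (n : ℕ) : wl wD (phiD ((FreeGroup.of 0) ^ n)) = n * (3 / 10) := by
  rw [phiD_pow, wl_mk (red_replicate n)]
  simp [W, wD0]

def lD (ms : List ℕ) : List (Fin 3 × Bool) :=
  ms.flatMap (fun m => List.replicate (m + 1) (0, true) ++ [(1, true), (2, true), (1, false)])

theorem lD_cons (m : ℕ) (ms : List ℕ) : lD (m :: ms) =
    (List.replicate (m + 1) (0, true) ++ [(1, true), (2, true), (1, false)]) ++ lD ms := by
  simp [lD]

theorem phiD_pblk (ms : List ℕ) : phiD (pblk ms) = FreeGroup.mk (lD ms) := by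
  induction ms with
  | nil => simp [pblk, lD]; rfl
  | cons m ms ih =>
    have h1 : pblk (m :: ms) = (FreeGroup.of 0 : F2') ^ (m + 1) * .of 1 * pblk ms := by
      simp [pblk]
    rw [h1, lD_cons, map_mul, map_mul, ih, phiD_pow, phiD_one, ← FreeGroup.mul_mk,
      ← FreeGroup.mul_mk]
    rfl

theorem lD_head (ms : List ℕ) : ∀ y ∈ (lD ms).head?, y.1 = 0 := by
  cases ms with
  | nil => simp [lD]
  | cons m ms =>
    rw [lD_cons, List.replicate_succ]
    simp

theorem lD_red (ms : List ℕ) : FreeGroup.IsReduced (lD ms) := by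
  induction ms with
  | nil => simp [lD, FreeGroup.IsReduced]
  | cons m ms ih =>
    rw [lD_cons]
    unfold FreeGroup.IsReduced at *
    rw [List.isChain_append, List.isChain_append]
    refine ⟨⟨red_replicate _, ?_, ?_⟩, ih, ?_⟩
    · simp [List.isChain_cons_cons]
    · intro x hx y hy
      have hx' : x = (0, true) := by
        have : x ∈ List.replicate (m + 1) ((0 : Fin 3), true) := List.mem_of_mem_getLast? hx
        exact List.eq_of_mem_replicate this
      simp at hy
      subst hx' hy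
      simp
    · intro x hx y hy
      have hy' := lD_head ms y hy
      simp at hx
      subst hx
      intro h
      rw [hy'] at h
      simp at h

theorem wlD_pblk (ms : List ℕ) : wl wD (phiD (pblk ms)) = sB ms := by
  rw [phiD_pblk, wl_mk (lD_red ms)]
  induction ms with
  | nil => simp [lD, W, sB]
  | cons m ms ih =>
    rw [lD_cons, W_append, ih, W_append]
    simp only [W, List.map_replicate, List.sum_replicate, sB, List.map_cons, List.sum_cons,
      List.map_nil, List.sum_nil]
    norm_num [wD0, wD1, wD2]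

theorem pblk_append (ms ns : List ℕ) : pblk (ms ++ ns) = pblk ms * pblk ns := by simp [pblk]

theorem sB_nonneg (ms : List ℕ) : 0 ≤ sB ms := by
  unfold sB
  apply List.sum_nonneg
  intro x hx
  rw [List.mem_map] at hx
  obtain ⟨m, _, rfl⟩ := hx
  positivity

theorem DD_pblk (ms : List ℕ) : DD.tree.len (pblk ms) = sB ms := by
  rw [len_tree, ← pblk_append]
  show max 0 (wl wD (phiD (pblk (ms ++ ms))) - wl wD (phiD (pblk ms))) = _
  rw [wlD_pblk, wlD_pblk]
  have : sB (ms ++ ms) = sB ms + sB ms := by simp [sB]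
  rw [this, add_sub_cancel_right]
  exact max_eq_right (sB_nonneg ms)

theorem DD_pow (n : ℕ) : DD.tree.len ((FreeGroup.of 0) ^ n) = n * (3 / 10) := by
  rw [len_tree, ← pow_add]
  show max 0 (wl wD (phiD _) - wl wD (phiD _)) = _
  rw [wlD_pow, wlD_pow]
  push_cast
  rw [max_eq_right (by have : (0 : ℝ) ≤ n := Nat.cast_nonneg n; nlinarith)]
  ring

theorem wlD_b : wl wD (phiD (.of 1)) = 9 / 10 := by
  have h : phiD (.of 1) = FreeGroup.mk [(1, true), (2, true), (1, false)] := by
    rw [phiD_one]; rfl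
  rw [h, wl_mk (by simp [FreeGroup.IsReduced])]
  norm_num [W, wD0, wD1, wD2]

theorem DD_b : DD.tree.len (.of 1) = 5 / 10 := by
  rw [len_tree]
  show max 0 (wl wD (phiD (.of 1 * .of 1)) - wl wD (phiD (.of 1))) = _
  have h : phiD (.of 1 * .of 1) =
      FreeGroup.mk [(1, true), (2, true), (2, true), (1, false)] := by
    rw [map_mul, phiD_one]
    have : (.of 1 * .of 2 * (.of 1)⁻¹ * (.of 1 * .of 2 * (.of 1)⁻¹) : F3) =
      .of 1 * .of 2 * .of 2 * (.of 1)⁻¹ := by group
    rw [this]
    rfl
  rw [wlD_b, h, wl_mk (by simp [FreeGroup.IsReduced])]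
  norm_num [W, wD0, wD1, wD2]

theorem DD_inCV : DD.tree.InCV := by
  have h1 : wl DD.w (DD.φ (.of 0)) = 3 / 10 := by
    have := wlD_pow 1
    rw [pow_one] at this
    show wl wD (phiD (.of 0)) = _
    rw [this]; norm_num
  refine inCV DD (ε := 1 / 10) (by norm_num) wD_ge (.of 0) (by rw [h1]; norm_num) ?_
    1 (.of 1) ?_
  · intro n
    rw [h1]
    exact wlD_pow n
  · unfold Btw base
    rw [smul_v, smul_v, dist_v, dist_v, dist_v]
    have e1 : (DD.j (mv 1 (1, false)))⁻¹ * DD.j (1, true) = .of 1 := by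
      simp [DD, j]
    have e2 : (DD.j (1, true))⁻¹ * DD.j (mv (.of 1) (1, false)) =
        FreeGroup.mk [(2, true), (1, false)] := by
      have : (DD.j (1, true))⁻¹ * DD.j (mv (.of 1) (1, false)) = .of 2 * (.of 1)⁻¹ := by
        simp [DD, j, mul_assoc]
      rw [this]; rfl
    have e3 : (DD.j (mv 1 (1, false)))⁻¹ * DD.j (mv (.of 1) (1, false)) = phiD (.of 1) := by
      simp [DD, j]
    rw [e1, e2, e3, wl_of, wl_mk (by simp [FreeGroup.IsReduced])]
    show wD 1 + W wD _ = wl wD _
    rw [wlD_b]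
    norm_num [W, wD0, wD1, wD2]

/-! ### Comparison -/

theorem agree_pow (k : ℤ) : DT.tree.len ((.of 0) ^ k) = DD.tree.len ((.of 0) ^ k) := by
  obtain ⟨n, rfl | rfl⟩ := k.eq_nat_or_neg
  · rw [zpow_natCast, DT_pow, DD_pow]
  · rw [zpow_neg, zpow_natCast, len_inv, len_inv, DT_pow, DD_pow]

theorem psiA_psiA (N : ℕ) (g : F2') : psiA N (psiA N g) = g := by
  have h : (psi N).comp (psi N) = MonoidHom.id _ :=
    hom2_ext' (by simp [psi]) (by simp [psi])
  exact DFunLike.congr_fun h g

theorem agree {g : F2'} (hg : IsPrimitive g) : ∀ᶠ N : ℕ in Filter.atTop,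
    (twist DT.tree (psiA N)).len g = (twist DD.tree (psiA N)).len g := by
  obtain ⟨c, m, h, hm⟩ := primitive_form hg
  have red : ∀ N : ℕ, DT.tree.len (psiA N m) = DD.tree.len (psiA N m) →
      (twist DT.tree (psiA N)).len g = (twist DD.tree (psiA N)).len g := by
    intro N hN
    rw [twist_len, twist_len]
    rcases h with h | h
    · rw [h, map_mul, map_mul, map_inv, len_conj, len_conj, hN]
    · rw [h, map_mul, map_mul, map_inv, map_inv, len_conj, len_conj, len_inv, len_inv, hN]
  rcases hm with ⟨k, rfl⟩ | ⟨ks, rfl⟩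
  · refine Filter.Eventually.of_forall fun N => red N ?_
    rw [map_zpow, psiA_zero, inv_zpow']
    exact agree_pow _
  · obtain ⟨N0, hN0⟩ := exists_bound ks
    filter_upwards [Filter.eventually_ge_atTop N0] with N hN
    apply red N
    rw [blk_eq N ks (hN0 N hN), psiA_psiA, DT_pblk, DD_pblk]

theorem not_same (N : ℕ) : ¬ (twist DT.tree (psiA N)).Same (twist DD.tree (psiA N)) := by
  intro h
  have h1 := congrFun h.len_eq (psiA N (.of 1))
  rw [twist_len, twist_len, psiA_psiA, DT_b, DD_b] at h1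
  norm_num at h1

end Pool.Agent.R692.CV
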